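import Pool.Agent.R490.GPf

set_option autoImplicit false

/-!
# Products of at most three primes among the first values of `a m² + b m + c` for almost all `c`
-/

namespace Pool.Agent.Results.MP_a1177c_nt.AlmostPrimesSmallestArguments

open Finset Filter

open Classical in
/-- the number of the integers `1 ≤ m ≤ T` such that `a m² + b m + n` is at least `2` and has at most `k` prime factors
(counted with multiplicity), all of them at least `w` -/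
noncomputable def almostPrimeValues (a b : ℕ) (n k : ℕ) (w T : ℝ) : ℕ :=
  ((Icc 1 ⌊T⌋₊).filter (fun j : ℕ => ∃ N : ℕ, N = a * j ^ 2 + b * j + n ∧ 2 ≤ N ∧
    N.primeFactorsList.length ≤ k ∧ ∀ q : ℕ, q.Prime → q ∣ N → w ≤ q)).card

lemma cnt_eq (a b : ℕ) (n k : ℕ) (w T : ℝ) :
    R490.LGb.cnt (fun _ => 1) (R490.GPf.Bq a b 1 0) k ⌊T⌋₊ n w ≤ almostPrimeValues a b n k w T := by
  classical
  unfold R490.LGb.cnt almostPrimeValues
  apply card_le_card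
  intro j hj
  rw [mem_filter] at hj ⊢
  obtain ⟨h1, h2, h3, h4⟩ := hj
  obtain ⟨N, hN⟩ : ∃ N : ℕ, (N : ℤ) = ((1 : ℕ) : ℤ) * n + R490.GPf.Bq a b 1 0 j :=
    ⟨(((1 : ℕ) : ℤ) * n + R490.GPf.Bq a b 1 0 j).toNat, Int.toNat_of_nonneg (by linarith)⟩
  rw [← hN] at h2 h3 h4
  rw [Int.toNat_natCast] at h3
  refine ⟨h1, N, ?_, by exact_mod_cast h2, h3, ?_⟩
  · unfold R490.GPf.Bq at hN
    push_cast at hN
    zify
    linarith
  · intro q hq hd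
    exact h4 q hq (by exact_mod_cast hd)

/-- **Almost primes among the first values of `a m² + b m + c` for almost all `c`.** -/
theorem result (a b : ℕ) (ha : 1 ≤ a) (θ ε : ℝ) (k : ℕ) (hθ : 0 < θ) (hθ1 : θ ≤ 1) (hk : 1 / 8 + 25 / (12 * θ) < k) (hε : 0 < ε) :
    ∃ κ Λ : ℝ, 0 < κ ∧ 0 < Λ ∧ ∀ l : ℝ, Λ ≤ l → ∃ X₀ : ℕ, ∀ X : ℕ, X₀ ≤ X → ∀ Z L : ℕ,
      (X : ℝ) ^ θ ≤ L → Z + L ≤ X →
      (({n : ℕ | n ∈ Ioc Z (Z + L) ∧ n.Coprime (a.gcd b) ∧ ¬ (2 ∣ a + b ∧ 2 ∣ n) ∧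
        (almostPrimeValues a b n k ((X : ℝ) ^ (θ / 10)) (l * Real.log X) : ℝ) < κ * l} : Set ℕ).ncard : ℝ) ≤ ε * L := by
  classical
  obtain ⟨κ, Λ, hκ, hΛ, h⟩ := R490.GPf.mainF2 a b 1 0 ha (by norm_num) θ ε k hθ hθ1 hk hε
  refine ⟨κ, Λ, hκ, hΛ, ?_⟩
  intro l hl
  obtain ⟨X₀, hX₀⟩ := eventually_atTop.1 (h l hl)
  refine ⟨X₀, ?_⟩
  intro X hX Z L hL hZ
  refine le_trans ?_ (hX₀ X hX Z L hL hZ)
  have hsub : ({n : ℕ | n ∈ Ioc Z (Z + L) ∧ n.Coprime (a.gcd b) ∧ ¬ (2 ∣ a + b ∧ 2 ∣ n) ∧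
        (almostPrimeValues a b n k ((X : ℝ) ^ (θ / 10)) (l * Real.log X) : ℝ) < κ * l} : Set ℕ) ⊆
      ((Ioc Z (Z + L)).filter (fun n => R490.GPf.AdmF a b 0 n ∧
        (R490.LGb.cnt (fun _ => 1) (R490.GPf.Bq a b 1 0) k ⌊l * Real.log X⌋₊ n
          ((X : ℝ) ^ (θ / 10)) : ℝ) < κ * l) : Finset ℕ) := by
    intro n hn
    obtain ⟨a1, a2, a2b, a3⟩ := hn
    rw [mem_coe, mem_filter]
    refine ⟨a1, ⟨?_, ?_⟩, ?_⟩
    · intro p hp h1 h2 h3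
      rw [add_zero] at h3
      have h4 : p ∣ n := by exact_mod_cast h3
      have h5 := Nat.dvd_gcd h4 (Nat.dvd_gcd h1 h2)
      rw [show n.gcd (a.gcd b) = 1 from a2] at h5
      exact hp.one_lt.ne' (Nat.dvd_one.1 h5)
    · rintro ⟨h1, h2⟩
      rw [add_zero] at h2
      exact a2b ⟨h1, by exact_mod_cast h2⟩
    · have a4 := cnt_eq a b n k ((X : ℝ) ^ (θ / 10)) (l * Real.log X)
      have a5 : (R490.LGb.cnt (fun _ => 1) (R490.GPf.Bq a b 1 0) k ⌊l * Real.log X⌋₊ n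
          ((X : ℝ) ^ (θ / 10)) : ℝ) ≤ almostPrimeValues a b n k ((X : ℝ) ^ (θ / 10)) (l * Real.log X) := by exact_mod_cast a4
      linarith
  have h5 := Set.ncard_le_ncard hsub (Finset.finite_toSet _)
  rw [Set.ncard_coe_finset] at h5
  exact_mod_cast h5

end Pool.Agent.Results.MP_a1177c_nt.AlmostPrimesSmallestArguments
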